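import Pool.Agent.Lib.P901b45u.Uniform

/-!
Reductions for the question of Frank on complementary vertices of integer
2-polymatroids (MP_901b45_co), for the class `Cls` of almost uniform 2-polymatroids.
-/

set_option autoImplicit false

namespace Pool.Agent.P901b45u

open Finset

variable {α : Type*} [DecidableEq α]

/-- There is a full chain of tight sets from the empty set to `A`. -/
inductive OV (f : Finset α → ℤ) (v : α → ℤ) : Finset α → Prop
  | nil : OV f v ∅
  | cons (A : Finset α) (e : α) (he : e ∉ A) (h : OV f v A)
      (ht : ∑ i ∈ insert e A, v i = f (insert e A)) : OV f v (insert e A)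

variable {f : Finset α → ℤ} {v : α → ℤ}

theorem OV.tight (h0 : f ∅ = 0) {A : Finset α} (h : OV f v A) : ∑ i ∈ A, v i = f A := by
  cases h with
  | nil => simp [h0]
  | cons A e he h ht => exact ht

/-- Greedy vectors are in the polymatroid. -/
theorem OV.le (S : Finset α) (h0 : f ∅ = 0)
    (hsub : ∀ A ⊆ S, ∀ B ⊆ S, f (A ∪ B) + f (A ∩ B) ≤ f A + f B)
    {A : Finset α} (h : OV f v A) : A ⊆ S → ∀ B ⊆ A, ∑ i ∈ B, v i ≤ f B := by
  induction h with
  | nil => intro _ B hB; rw [subset_empty.mp hB]; simp [h0]
  | cons A e he h ht ih =>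
    intro hAS B hB
    have hAS' : A ⊆ S := fun x hx => hAS (mem_insert_of_mem hx)
    by_cases heB : e ∈ B
    · have hB' : B.erase e ⊆ A := by
        intro x hx
        rcases mem_insert.mp (hB (mem_of_mem_erase hx)) with h1 | h1
        · exact absurd h1 (ne_of_mem_erase hx)
        · exact h1
      have h1 := ih hAS' (B.erase e) hB'
      have h2 : ∑ i ∈ B, v i = v e + ∑ i ∈ B.erase e, v i := (add_sum_erase B v heB).symm
      have h3 : ∑ i ∈ insert e A, v i = v e + ∑ i ∈ A, v i := sum_insert he
      have h4 := h.tight h0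
      have h5 := hsub A hAS' B (hB.trans hAS)
      have h6 : A ∪ B = insert e A := by
        ext x
        simp only [mem_union, mem_insert]
        constructor
        · rintro (hx | hx)
          · exact Or.inr hx
          · exact mem_insert.mp (hB hx)
        · rintro (hx | hx)
          · subst hx; exact Or.inr heB
          · exact Or.inl hx
      have h7 : A ∩ B = B.erase e := by
        ext x
        simp only [mem_inter, mem_erase]
        constructor
        · rintro ⟨hx, hx'⟩
          exact ⟨fun h => he (h ▸ hx), hx'⟩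
        · rintro ⟨hx, hx'⟩
          rcases mem_insert.mp (hB hx') with h8 | h8
          · exact absurd h8 hx
          · exact ⟨h8, hx'⟩
      rw [h6, h7] at h5
      linarith
    · refine ih hAS' B ?_
      intro x hx
      rcases mem_insert.mp (hB hx) with h1 | h1
      · exact absurd (h1 ▸ hx) heB
      · exact h1

theorem OV.congr {v' : α → ℤ} {A : Finset α} (h : OV f v A) :
    (∀ i ∈ A, v i = v' i) → OV f v' A := by
  induction h with
  | nil => intro _; exact OV.nil
  | cons A e he h ht ih =>
    intro hv
    refine OV.cons A e he (ih fun i hi => hv i (mem_insert_of_mem hi)) ?_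
    rw [← ht]
    exact sum_congr rfl fun i hi => (hv i hi).symm

/-- Extending a chain of the contraction. -/
theorem OV.contract (A : Finset α) {v₁ : α → ℤ} (h₁ : OV f v₁ A) {B : Finset α}
    {v₂ : α → ℤ} (h₂ : OV (fun X => f (A ∪ X) - f A) v₂ B) (h0 : f ∅ = 0) :
    Disjoint A B → OV f (fun i => if i ∈ A then v₁ i else v₂ i) (A ∪ B) := by
  have hA : OV f (fun i => if i ∈ A then v₁ i else v₂ i) A :=
    h₁.congr fun i hi => by simp [hi]
  induction h₂ with
  | nil => intro _; simpa using hA
  | cons B e he h ht ih =>
    intro hd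
    have hd' : Disjoint A B := hd.mono_right (subset_insert e B)
    have heA : e ∉ A := fun h => (disjoint_left.mp hd h) (mem_insert_self e B)
    have h1 := ih hd'
    have h2 : A ∪ insert e B = insert e (A ∪ B) := by
      rw [union_insert]
    rw [h2]
    refine OV.cons _ e (by simp [heA, he]) h1 ?_
    have h3 := hA.tight h0
    have h4 : ∑ i ∈ insert e (A ∪ B), (if i ∈ A then v₁ i else v₂ i)
        = ∑ i ∈ A, (if i ∈ A then v₁ i else v₂ i) + ∑ i ∈ insert e B, v₂ i := by
      rw [← h2, sum_union hd]
      congr 1
      refine sum_congr rfl fun i hi => ?_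
      have : i ∉ A := fun h => (disjoint_left.mp hd h) hi
      simp [this]
    rw [h4, h3, ht, h2]
    ring

/-- The hypotheses on a 2-polymatroid, relative to the ground set `S`. -/
structure Pm (S : Finset α) (f : Finset α → ℤ) : Prop where
  zero : f ∅ = 0
  mono : ∀ A B : Finset α, A ⊆ B → B ⊆ S → f A ≤ f B
  sub : ∀ A ⊆ S, ∀ B ⊆ S, f (A ∪ B) + f (A ∩ B) ≤ f A + f B
  two : ∀ e ∈ S, f {e} ≤ 2
  one : ∀ A ⊆ S, (A.card : ℤ) ≤ f A

/-- The conclusion in the base case. -/
structure Sol (S : Finset α) (f : Finset α → ℤ) (v : α → ℤ) : Prop where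
  nonneg : ∀ i ∈ S, 0 ≤ v i
  le_two : ∀ i ∈ S, v i ≤ 2
  compl : ∀ A ⊆ S, 2 * (A.card : ℤ) - ∑ i ∈ A, v i ≤ f A
  ov : OV f v S

theorem Pm.restrict {S : Finset α} (h : Pm S f) {A : Finset α} (hA : A ⊆ S) : Pm A f where
  zero := h.zero
  mono := fun X Y hXY hY => h.mono X Y hXY (hY.trans hA)
  sub := fun X hX Y hY => h.sub X (hX.trans hA) Y (hY.trans hA)
  two := fun e he => h.two e (hA he)
  one := fun X hX => h.one X (hX.trans hA)

theorem Pm.contract {S : Finset α} (h : Pm S f) {A : Finset α} (hA : A ⊆ S)
    (hf : f A = A.card) : Pm (S \ A) (fun X => f (A ∪ X) - f A) where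
  zero := by simp
  mono := fun X Y hXY hY => by
    have := h.mono (A ∪ X) (A ∪ Y) (union_subset_union_right hXY)
      (union_subset hA (hY.trans sdiff_subset))
    simpa using this
  sub := fun X hX Y hY => by
    have h1 := h.sub (A ∪ X) (union_subset hA (hX.trans sdiff_subset)) (A ∪ Y)
      (union_subset hA (hY.trans sdiff_subset))
    have h2 : (A ∪ X) ∪ (A ∪ Y) = A ∪ (X ∪ Y) := by
      ext x; simp only [mem_union]; tauto
    have h3 : (A ∪ X) ∩ (A ∪ Y) = A ∪ (X ∩ Y) := by
      ext x; simp only [mem_union, mem_inter]; tauto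
    rw [h2, h3] at h1
    show f (A ∪ (X ∪ Y)) - f A + (f (A ∪ (X ∩ Y)) - f A) ≤ f (A ∪ X) - f A + (f (A ∪ Y) - f A)
    linarith
  two := fun e he => by
    have heS : e ∈ S := (mem_sdiff.mp he).1
    have heA : e ∉ A := (mem_sdiff.mp he).2
    have h1 := h.sub A hA {e} (singleton_subset_iff.mpr heS)
    have h2 : A ∩ {e} = ∅ := by
      rw [inter_singleton_of_notMem heA]
    rw [h2, h.zero] at h1
    have h3 := h.two e heS
    show f (A ∪ {e}) - f A ≤ 2
    linarith
  one := fun X hX => by
    have hd : Disjoint A X := by
      rw [disjoint_left]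
      intro x hx hx'
      exact (mem_sdiff.mp (hX hx')).2 hx
    have h1 := h.one (A ∪ X) (union_subset hA (hX.trans sdiff_subset))
    rw [card_union_of_disjoint hd] at h1
    push_cast at h1
    show (X.card : ℤ) ≤ f (A ∪ X) - f A
    linarith

/-- No integral `u` with `u` and `2 - u` in the polymatroid has exactly `t + 1` entries `2` and
exactly `t + 1` entries `0`. -/
def NoU (S : Finset α) (f : Finset α → ℤ) (t : ℕ) : Prop :=
  ∀ u : α → ℤ, (∀ i ∈ S, 0 ≤ u i) → (∀ i ∈ S, u i ≤ 2) →
    (∀ A ⊆ S, ∑ i ∈ A, u i ≤ f A) → (∀ A ⊆ S, ∑ i ∈ A, (2 - u i) ≤ f A) →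
    (S.filter (fun i => u i = 2)).card = t + 1 →
    (S.filter (fun i => u i = 0)).card = t + 1 → False

/-- The class of rank functions treated here. -/
def Cls (S : Finset α) (f : Finset α → ℤ) : Prop :=
  ∃ t : ℕ, 1 ≤ t ∧
    (t = 1 ∨ ∀ A ⊆ S, (A.card : ℤ) + min (A.card : ℤ) (min ((S \ A).card : ℤ) t) ≤ f A) ∧
    ((∀ A ⊆ S, f A ≤ A.card + t + 1) ∨ NoU S f t)

theorem Cls.one {S : Finset α} (h : Cls S f) {A : Finset α} (hA : A ⊆ S)
    (hne : A.Nonempty) (hAS : A ≠ S) (hf : f A = A.card) :
    (∀ X ⊆ S, f X ≤ X.card + 1 + 1) ∨ NoU S f 1 := by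
  obtain ⟨t, ht, h1 | h1, h2⟩ := h
  · subst h1
    rcases h2 with h2 | h2
    · left
      intro X hX
      have := h2 X hX
      push_cast at this
      exact this
    · exact Or.inr h2
  · exfalso
    have h1 := h1 A hA
    rw [hf] at h1
    have h2 : (1 : ℤ) ≤ A.card := by exact_mod_cast card_pos.mpr hne
    have h3 : (1 : ℤ) ≤ (S \ A).card := by
      have : (S \ A).Nonempty := by
        obtain ⟨x, hx, hx'⟩ := exists_of_ssubset (ssubset_of_subset_of_ne hA hAS)
        exact ⟨x, mem_sdiff.mpr ⟨hx, hx'⟩⟩
      exact_mod_cast card_pos.mpr this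
    have h4 : (1 : ℤ) ≤ t := by exact_mod_cast ht
    have h5 : (1 : ℤ) ≤ min (A.card : ℤ) (min ((S \ A).card : ℤ) t) := le_min h2 (le_min h3 h4)
    linarith

/-- Filling up with ones. -/
theorem fill {P : Finset α} (u : α → ℤ) (X : Finset α) :
    ∑ i ∈ X, (if i ∈ P then u i else 1) = ∑ i ∈ X ∩ P, u i + ((X \ P).card : ℤ) := by
  have hX' : X = (X ∩ P) ∪ (X \ P) := by
    ext x; simp only [mem_union, mem_sdiff, mem_inter]; tauto
  have hd : Disjoint (X ∩ P) (X \ P) := by
    rw [disjoint_left]
    intro x hx hx'
    exact (mem_sdiff.mp hx').2 (mem_inter.mp hx).2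
  conv_lhs => rw [hX', sum_union hd]
  congr 1
  · refine sum_congr rfl fun i hi => ?_
    simp [(mem_inter.mp hi).2]
  · rw [sum_congr rfl (g := fun _ => (1 : ℤ)) fun i hi => by simp [(mem_sdiff.mp hi).2]]
    simp

theorem fill_card {S P : Finset α} (hP : P ⊆ S) (u : α → ℤ) (c : ℤ) (hc : c ≠ 1) :
    S.filter (fun i => (if i ∈ P then u i else 1) = c) = P.filter (fun i => u i = c) := by
  ext x
  simp only [mem_filter]
  constructor
  · rintro ⟨_, h2⟩
    by_cases hx : x ∈ P
    · rw [if_pos hx] at h2
      exact ⟨hx, h2⟩
    · rw [if_neg hx] at h2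
      exact absurd h2.symm hc
  · rintro ⟨h1, h2⟩
    exact ⟨hP h1, by rw [if_pos h1]; exact h2⟩

theorem NoU.piece {S : Finset α} {t : ℕ} (h : NoU S f t) {P : Finset α} (hP : P ⊆ S)
    {f' : Finset α → ℤ} (hf : ∀ X ⊆ S, f' (X ∩ P) + ((X \ P).card : ℤ) ≤ f X) : NoU P f' t := by
  intro u h0 h2 hu hu' hc2 hc0
  refine h (fun i => if i ∈ P then u i else 1) ?_ ?_ ?_ ?_ ?_ ?_
  · intro i _
    by_cases hi : i ∈ P
    · simpa [hi] using h0 i hi
    · simp [hi]
  · intro i _
    by_cases hi : i ∈ P
    · simpa [hi] using h2 i hi
    · simp [hi]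
  · intro X hX
    rw [fill u X]
    have h3 := hu (X ∩ P) inter_subset_right
    have h4 := hf X hX
    linarith
  · intro X hX
    have h5 : ∑ i ∈ X, (2 - (if i ∈ P then u i else 1))
        = ∑ i ∈ X, (if i ∈ P then (2 - u i) else 1) := by
      refine sum_congr rfl fun i _ => ?_
      by_cases hi : i ∈ P
      · simp [hi]
      · simp [hi]
    rw [h5, fill (fun i => 2 - u i) X]
    have h3 := hu' (X ∩ P) inter_subset_right
    have h4 := hf X hX
    linarith
  · rw [fill_card hP u 2 (by norm_num)]
    exact hc2
  · rw [fill_card hP u 0 (by norm_num)]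
    exact hc0

theorem Cls.restrict {S : Finset α} (hPm : Pm S f) (h : Cls S f) {A : Finset α} (hA : A ⊆ S)
    (hne : A.Nonempty) (hAS : A ≠ S) (hf : f A = A.card) : Cls A f := by
  refine ⟨1, le_rfl, Or.inl rfl, ?_⟩
  rcases h.one hA hne hAS hf with h1 | h1
  · left
    intro X hX
    have := h1 X (hX.trans hA)
    push_cast
    exact this
  · right
    refine h1.piece hA fun X hX => ?_
    have h2 := hPm.sub X hX A hA
    have h3 := hPm.one (X ∪ A) (union_subset hX hA)
    have h4 : ((X ∪ A).card : ℤ) = A.card + (X \ A).card := by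
      rw [union_comm, ← union_sdiff_self_eq_union, card_union_of_disjoint disjoint_sdiff]
      push_cast
      ring
    rw [h4] at h3
    linarith

theorem Cls.contract {S : Finset α} (hPm : Pm S f) (h : Cls S f) {A : Finset α} (hA : A ⊆ S)
    (hne : A.Nonempty) (hAS : A ≠ S) (hf : f A = A.card) :
    Cls (S \ A) (fun X => f (A ∪ X) - f A) := by
  refine ⟨1, le_rfl, Or.inl rfl, ?_⟩
  rcases h.one hA hne hAS hf with h1 | h1
  · left
    intro X hX
    have h1 := h1 (A ∪ X) (union_subset hA (hX.trans sdiff_subset))
    have h2 : ((A ∪ X).card : ℤ) ≤ A.card + X.card := by exact_mod_cast card_union_le A X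
    show f (A ∪ X) - f A ≤ X.card + (1 : ℕ) + 1
    rw [hf]
    push_cast
    linarith
  · right
    refine h1.piece sdiff_subset fun X hX => ?_
    show f (A ∪ X ∩ (S \ A)) - f A + ((X \ (S \ A)).card : ℤ) ≤ f X
    have h2 := hPm.sub X hX A hA
    have h3 := hPm.one (X ∩ A) (inter_subset_left.trans hX)
    have h4 : A ∪ X ∩ (S \ A) = X ∪ A := by
      ext x
      simp only [mem_union, mem_inter, mem_sdiff]
      constructor
      · rintro (h | ⟨h, _⟩)
        · exact Or.inr h
        · exact Or.inl h
      · rintro (h | h)
        · by_cases hx : x ∈ A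
          · exact Or.inl hx
          · exact Or.inr ⟨h, hX h, hx⟩
        · exact Or.inl h
    have h5 : X \ (S \ A) = X ∩ A := by
      ext x
      simp only [mem_inter, mem_sdiff]
      constructor
      · rintro ⟨h, h'⟩
        refine ⟨h, ?_⟩
        by_contra hx
        exact h' ⟨hX h, hx⟩
      · rintro ⟨h, h'⟩
        exact ⟨h, fun h'' => h''.2 h'⟩
    rw [h4, h5]
    linarith

theorem Cls.trunc {S : Finset α} (h : Cls S f) : Cls S (fun A => min (f A) S.card) := by
  obtain ⟨t, ht, h1, h2⟩ := h
  refine ⟨t, ht, ?_, ?_⟩
  · rcases h1 with h1 | h1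
    · exact Or.inl h1
    · right
      intro A hA
      refine le_min (h1 A hA) ?_
      have h1 : ((S \ A).card : ℤ) + (A.card : ℤ) = S.card := by
        exact_mod_cast card_sdiff_add_card_eq_card hA
      have h2 : min (A.card : ℤ) (min ((S \ A).card : ℤ) t) ≤ (S \ A).card :=
        le_trans (min_le_right _ _) (min_le_left _ _)
      linarith
  · rcases h2 with h2 | h2
    · exact Or.inl fun A hA => le_trans (min_le_left _ _) (h2 A hA)
    · right
      intro u h3 h4 h5 h6
      exact h2 u h3 h4 (fun A hA => le_trans (h5 A hA) (min_le_left _ _))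
        (fun A hA => le_trans (h6 A hA) (min_le_left _ _))

/-- Gluing along a tight set. -/
theorem Sol.glue {S : Finset α} (h : Pm S f) {A : Finset α} (hA : A ⊆ S)
    {v₁ v₂ : α → ℤ} (h₁ : Sol A f v₁) (h₂ : Sol (S \ A) (fun X => f (A ∪ X) - f A) v₂) :
    Sol S f (fun i => if i ∈ A then v₁ i else v₂ i) where
  nonneg := fun i hi => by
    by_cases hiA : i ∈ A
    · simpa [hiA] using h₁.nonneg i hiA
    · simpa [hiA] using h₂.nonneg i (mem_sdiff.mpr ⟨hi, hiA⟩)
  le_two := fun i hi => by
    by_cases hiA : i ∈ A
    · simpa [hiA] using h₁.le_two i hiA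
    · simpa [hiA] using h₂.le_two i (mem_sdiff.mpr ⟨hi, hiA⟩)
  compl := fun X hX => by
    have h3 := h₁.compl (X ∩ A) inter_subset_right
    have hXA : X \ A ⊆ S \ A := sdiff_subset_sdiff hX (le_refl A)
    have h4 := h₂.compl (X \ A) hXA
    have h5 := h.sub X hX A hA
    have h6 : A ∪ (X \ A) = X ∪ A := by
      ext x; simp only [mem_union, mem_sdiff]; tauto
    have h4' : 2 * ((X \ A).card : ℤ) - ∑ i ∈ X \ A, v₂ i ≤ f (A ∪ (X \ A)) - f A := h4
    rw [h6] at h4'
    have h7 : (X.card : ℤ) = ((X \ A).card : ℤ) + ((X ∩ A).card : ℤ) := by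
      have := card_sdiff_add_card_inter X A
      exact_mod_cast this.symm
    have h8 : ∑ i ∈ X, (if i ∈ A then v₁ i else v₂ i)
        = ∑ i ∈ X ∩ A, v₁ i + ∑ i ∈ X \ A, v₂ i := by
      have hX' : X = (X ∩ A) ∪ (X \ A) := by
        ext x; simp only [mem_union, mem_sdiff, mem_inter]; tauto
      have hd : Disjoint (X ∩ A) (X \ A) := by
        rw [disjoint_left]
        intro x hx hx'
        exact (mem_sdiff.mp hx').2 (mem_inter.mp hx).2
      conv_lhs => rw [hX', sum_union hd]
      congr 1
      · refine sum_congr rfl fun i hi => ?_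
        simp [(mem_inter.mp hi).2]
      · refine sum_congr rfl fun i hi => ?_
        simp [(mem_sdiff.mp hi).2]
    rw [h8, h7]
    linarith
  ov := by
    have h3 := OV.contract A h₁.ov h₂.ov h.zero disjoint_sdiff
    rwa [union_sdiff_of_subset hA] at h3

/-- Tight sets separating all pairs give a full chain of tight sets. -/
theorem exists_ov {S : Finset α} (h0 : f ∅ = 0)
    (hsub : ∀ A ⊆ S, ∀ B ⊆ S, f (A ∪ B) + f (A ∩ B) ≤ f A + f B)
    (hv : ∀ A ⊆ S, ∑ i ∈ A, v i ≤ f A) (hS : ∑ i ∈ S, v i = f S)
    (hsep : ∀ i ∈ S, ∀ j ∈ S, i ≠ j → ∃ A ⊆ S, ∑ k ∈ A, v k = f A ∧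
      (i ∈ A ∧ j ∉ A ∨ j ∈ A ∧ i ∉ A)) : OV f v S := by
  have hunion : ∀ A ⊆ S, ∀ B ⊆ S, ∑ k ∈ A, v k = f A → ∑ k ∈ B, v k = f B →
      ∑ k ∈ A ∪ B, v k = f (A ∪ B) ∧ ∑ k ∈ A ∩ B, v k = f (A ∩ B) := by
    intro A hA B hB h1 h2
    have h3 := hsub A hA B hB
    have h4 := hv (A ∪ B) (union_subset hA hB)
    have h5 := hv (A ∩ B) (inter_subset_left.trans hA)
    have h6 : ∑ k ∈ A ∪ B, v k + ∑ k ∈ A ∩ B, v k = ∑ k ∈ A, v k + ∑ k ∈ B, v k :=
      sum_union_inter
    constructor <;> linarith
  -- climb
  have key : ∀ (m : ℕ) (A : Finset α), A ⊆ S → (S \ A).card = m → OV f v A → OV f v S := by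
    intro m
    induction m with
    | zero =>
      intro A hA hc h
      have : S \ A = ∅ := card_eq_zero.mp hc
      have hSA : S ⊆ A := sdiff_eq_empty_iff_subset.mp this
      rwa [Subset.antisymm hSA hA]
    | succ m ih =>
      intro A hA hc h
      -- minimal tight set strictly above `A`
      classical
      let F := (S.powerset).filter (fun B => A ⊂ B ∧ ∑ k ∈ B, v k = f B)
      have hne : F.Nonempty := by
        refine ⟨S, ?_⟩
        simp only [F, mem_filter, mem_powerset]
        refine ⟨le_refl S, ⟨hA, ?_⟩, hS⟩
        intro hSA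
        have : S \ A = ∅ := sdiff_eq_empty_iff_subset.mpr hSA
        rw [this] at hc
        simp at hc
      obtain ⟨B, hB, hmin⟩ := exists_min_image F card hne
      simp only [F, mem_filter, mem_powerset] at hB
      obtain ⟨hBS, hAB, hBt⟩ := hB
      have hone : (B \ A).card = 1 := by
        by_contra hcard
        have hpos : 0 < (B \ A).card := by
          rw [card_pos]
          obtain ⟨x, hx, hx'⟩ := exists_of_ssubset hAB
          exact ⟨x, mem_sdiff.mpr ⟨hx, hx'⟩⟩
        have h2 : 1 < (B \ A).card := by omega
        obtain ⟨i, hi, j, hj, hij⟩ := one_lt_card.mp h2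
        rw [mem_sdiff] at hi hj
        obtain ⟨C, hC, hCt, hCs⟩ := hsep i (hBS hi.1) j (hBS hj.1) hij
        have hCB := (hunion C hC B hBS hCt hBt).2
        have hCBS : C ∩ B ⊆ S := inter_subset_left.trans hC
        have hA' := h.tight h0
        have hU := (hunion A hA (C ∩ B) hCBS hA' hCB).1
        have hmem : ∀ x y : α, x ∈ B → x ∉ A → y ∈ B → y ∉ A → x ∈ C → y ∉ C → False := by
          intro x y hx hxA hy hyA hxC hyC
          have hF : A ∪ (C ∩ B) ∈ F := by
            simp only [F, mem_filter, mem_powerset]
            refine ⟨union_subset hA hCBS, ⟨subset_union_left, ?_⟩, hU⟩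
            intro hcon
            exact hxA (hcon (mem_union_right _ (mem_inter.mpr ⟨hxC, hx⟩)))
          have h5 := hmin _ hF
          have h6 : A ∪ (C ∩ B) ⊂ B := by
            refine ⟨union_subset hAB.1 inter_subset_right, ?_⟩
            intro hcon
            rcases mem_union.mp (hcon hy) with h7 | h7
            · exact hyA h7
            · exact hyC (mem_inter.mp h7).1
          have h7 := card_lt_card h6
          omega
        rcases hCs with ⟨h5, h6⟩ | ⟨h5, h6⟩
        · exact hmem i j hi.1 hi.2 hj.1 hj.2 h5 h6
        · exact hmem j i hj.1 hj.2 hi.1 hi.2 h5 h6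
      obtain ⟨e, he⟩ := card_eq_one.mp hone
      have heB : e ∈ B \ A := by rw [he]; exact mem_singleton_self e
      have heA : e ∉ A := (mem_sdiff.mp heB).2
      have hB' : B = insert e A := by
        ext x
        rw [mem_insert]
        constructor
        · intro hx
          by_cases hxA : x ∈ A
          · exact Or.inr hxA
          · have : x ∈ B \ A := mem_sdiff.mpr ⟨hx, hxA⟩
            rw [he, mem_singleton] at this
            exact Or.inl this
        · rintro (hx | hx)
          · rw [hx]; exact (mem_sdiff.mp heB).1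
          · exact hAB.1 hx
      refine ih (insert e A) (hB' ▸ hBS) ?_ (OV.cons A e heA h (hB' ▸ hBt))
      have h8 : S \ insert e A = (S \ A).erase e := by
        ext x
        simp only [mem_sdiff, mem_insert, mem_erase]
        tauto
      rw [h8, card_erase_of_mem (mem_sdiff.mpr ⟨hBS (mem_sdiff.mp heB).1, heA⟩), hc]
      rfl
  exact key _ ∅ (empty_subset S) rfl OV.nil

/-- The base case: `f S = card S`. -/
theorem base {α : Type} [DecidableEq α] :
    ∀ (m : ℕ) (S : Finset α) (f : Finset α → ℤ), S.card = m → Pm S f → Cls S f →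
      f S = S.card → ∃ v, Sol S f v := by
  intro m
  induction m using Nat.strong_induction_on with
  | _ m ih =>
  intro S f hm h hcls hS
  by_cases hex : ∃ A ⊆ S, A.Nonempty ∧ A ≠ S ∧ f A = A.card
  · obtain ⟨A, hA, hAne, hAS, hAt⟩ := hex
    have hAss : A ⊂ S := ssubset_of_subset_of_ne hA hAS
    have h1 : A.card < m := hm ▸ card_lt_card hAss
    have h2 : (S \ A).card < m := by
      rw [card_sdiff_of_subset hA, hm]
      have := card_pos.mpr hAne
      omega
    obtain ⟨v₁, hv₁⟩ := ih _ h1 A f rfl (h.restrict hA) (hcls.restrict h hA hAne hAS hAt) hAt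
    have h3 : (fun X => f (A ∪ X) - f A) (S \ A) = ((S \ A).card : ℤ) := by
      show f (A ∪ (S \ A)) - f A = _
      rw [union_sdiff_of_subset hA, hS, hAt]
      have := card_sdiff_add_card_eq_card hA
      have h4 : ((S \ A).card : ℤ) + (A.card : ℤ) = (S.card : ℤ) := by exact_mod_cast this
      linarith
    obtain ⟨v₂, hv₂⟩ := ih _ h2 (S \ A) _ rfl (h.contract hA hAt)
      (hcls.contract h hA hAne hAS hAt) h3
    exact ⟨_, hv₁.glue h hA hv₂⟩
  · -- irreducible case
    by_cases hc : S.card ≤ 1
    · -- `v = 1`
      refine ⟨fun _ => 1, ?_, ?_, ?_, ?_⟩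
      · intro i _; norm_num
      · intro i _; norm_num
      · intro A hA
        have := h.one A hA
        simp only [sum_const, nsmul_eq_mul, mul_one]
        linarith
      · rcases Nat.lt_or_ge S.card 1 with h1 | h1
        · have h2 : S = ∅ := card_eq_zero.mp (by omega)
          rw [h2]; exact OV.nil
        · obtain ⟨e, he⟩ := card_eq_one.mp (le_antisymm hc h1)
          subst he
          have h2 : ({e} : Finset α) = insert e ∅ := by simp
          rw [h2]
          refine OV.cons ∅ e (by simp) OV.nil ?_
          rw [← h2, hS]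
          simp
    · push Not at hc
      let ι : {x // x ∈ S} ↪ α := Function.Embedding.subtype _
      let g : Finset {x // x ∈ S} → ℤ := fun A => f (A.map ι) - A.card
      have hmap : ∀ A : Finset {x // x ∈ S}, A.map ι ⊆ S := by
        intro A x hx
        obtain ⟨y, _, rfl⟩ := mem_map.mp hx
        exact y.2
      have hgsub : ∀ A B : Finset {x // x ∈ S}, g (A ∪ B) + g (A ∩ B) ≤ g A + g B := by
        intro A B
        have h1 := h.sub (A.map ι) (hmap A) (B.map ι) (hmap B)
        have h2 := card_union_add_card_inter A B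
        have h3 : ((A ∪ B).card : ℤ) + ((A ∩ B).card : ℤ) = (A.card : ℤ) + (B.card : ℤ) := by
          exact_mod_cast h2
        simp only [g]
        rw [map_union, map_inter]
        linarith
      have huniv : (univ : Finset {x // x ∈ S}).map ι = S := by
        ext x
        constructor
        · intro hx; exact hmap _ hx
        · intro hx
          exact mem_map.mpr ⟨⟨x, hx⟩, mem_univ _, rfl⟩
      have hcard : Fintype.card {x // x ∈ S} = S.card := Fintype.card_coe S
      have hg0 : g ∅ = 0 := by simp [g, h.zero]
      have hg1 : g univ = 0 := by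
        simp only [g]
        rw [huniv, hS, card_univ, hcard]
        simp
      have hup : ∀ (A : Finset {x // x ∈ S}) (e : {x // x ∈ S}), g (insert e A) ≤ g A + 1 := by
        intro A e
        by_cases he : e ∈ A
        · rw [insert_eq_of_mem he]; linarith
        · have h1 := hgsub A {e}
          have h2 : A ∩ {e} = ∅ := inter_singleton_of_notMem he
          rw [h2, hg0] at h1
          have h3 : A ∪ {e} = insert e A := by
            rw [union_comm]; rfl
          rw [h3] at h1
          have h4 : g {e} ≤ 1 := by
            have := h.two e.1 e.2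
            have h5 : ({e} : Finset {x // x ∈ S}).map ι = {e.1} := by
              rw [map_singleton]; rfl
            simp only [g]
            rw [h5, card_singleton]
            push_cast
            linarith
          linarith
      have hdown : ∀ (A : Finset {x // x ∈ S}) (e : {x // x ∈ S}), g A ≤ g (insert e A) + 1 := by
        intro A e
        by_cases he : e ∈ A
        · rw [insert_eq_of_mem he]; linarith
        · have h1 : f (A.map ι) ≤ f ((insert e A).map ι) :=
            h.mono _ _ (map_subset_map.mpr (subset_insert e A)) (hmap _)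
          simp only [g]
          rw [card_insert_of_notMem he]
          push_cast
          linarith
      have hpos : ∀ A : Finset {x // x ∈ S}, A.Nonempty → A ≠ univ → 1 ≤ g A := by
        intro A hA hA'
        have h1 := h.one (A.map ι) (hmap A)
        rw [card_map] at h1
        by_contra hcon
        push Not at hcon
        have h2 : f (A.map ι) = ((A.map ι).card : ℤ) := by
          simp only [g] at hcon
          rw [card_map]
          linarith
        refine hex ⟨A.map ι, hmap A, hA.map, ?_, h2⟩
        intro h3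
        apply hA'
        have h4 : A.map ι = (univ : Finset {x // x ∈ S}).map ι := by rw [h3, huniv]
        exact map_injective ι h4
      have hmapc : ∀ A : Finset {x // x ∈ S}, Aᶜ.map ι = S \ A.map ι := by
        intro A
        ext x
        rw [mem_sdiff]
        constructor
        · intro hx
          refine ⟨hmap _ hx, fun hx' => ?_⟩
          obtain ⟨y, hy, hyx⟩ := mem_map.mp hx
          obtain ⟨y', hy', hyx'⟩ := mem_map.mp hx'
          have : y = y' := ι.injective (hyx.trans hyx'.symm)
          exact mem_compl.mp hy (this ▸ hy')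
        · rintro ⟨hx, hx'⟩
          refine mem_map.mpr ⟨⟨x, hx⟩, mem_compl.mpr fun h => hx' (mem_map.mpr ⟨_, h, rfl⟩), rfl⟩
      have hsol : HasSol g := by
        obtain ⟨t, ht, hb, hb'⟩ := hcls
        refine main_core hg0 hg1 hgsub hup hdown t ht ?_ ?_
        · rcases hb with hb | hb
          · intro A
            by_cases hA : A = ∅
            · rw [hA, hg0]
              exact le_trans (min_le_left _ _) (by simp)
            · by_cases hA' : A = univ
              · rw [hA', hg1]
                refine le_trans (min_le_right _ _) (le_trans (min_le_left _ _) (by simp))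
              · refine le_trans (min_le_right _ _) (le_trans (min_le_right _ _) ?_)
                rw [hb]
                push_cast
                exact hpos A (nonempty_iff_ne_empty.mpr hA) hA'
          · intro A
            have h1 := hb (A.map ι) (hmap A)
            rw [← hmapc, card_map, card_map] at h1
            simp only [g]
            linarith
        · rcases hb' with hb' | hb'
          · left
            intro A
            have h1 := hb' (A.map ι) (hmap A)
            rw [card_map] at h1
            simp only [g]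
            linarith
          · right
            intro T R hTR hT hR hTle hRle
            let u : α → ℤ := fun x => if x ∈ T.map ι then 2 else if x ∈ R.map ι then 0 else 1
            have hTR' : ∀ x, x ∈ T.map ι → x ∉ R.map ι := by
              intro x hx hx'
              obtain ⟨y, hy, hyx⟩ := mem_map.mp hx
              obtain ⟨y', hy', hyx'⟩ := mem_map.mp hx'
              have : y = y' := ι.injective (hyx.trans hyx'.symm)
              exact disjoint_left.mp hTR hy (this ▸ hy')
            have hu : ∀ x, u x = 1 + (if x ∈ T.map ι then 1 else 0)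
                - (if x ∈ R.map ι then 1 else 0) := by
              intro x
              simp only [u]
              by_cases h1 : x ∈ T.map ι
              · rw [if_pos h1, if_pos h1, if_neg (hTR' x h1)]; norm_num
              · by_cases h2 : x ∈ R.map ι
                · rw [if_neg h1, if_pos h2, if_neg h1, if_pos h2]; norm_num
                · rw [if_neg h1, if_neg h2, if_neg h1, if_neg h2]; norm_num
            have hsurj : ∀ A ⊆ S, ∃ A' : Finset {x // x ∈ S}, A'.map ι = A := by
              intro A hA
              refine ⟨A.subtype (fun x => x ∈ S), ?_⟩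
              ext x
              simp only [ι, mem_map, mem_subtype, Function.Embedding.coe_subtype]
              constructor
              · rintro ⟨y, hy, rfl⟩; exact hy
              · intro hx; exact ⟨⟨x, hA hx⟩, hx, rfl⟩
            have husum : ∀ A : Finset {x // x ∈ S}, ∑ i ∈ A.map ι, u i
                = A.card + ((A ∩ T).card : ℤ) - ((A ∩ R).card : ℤ) := by
              intro A
              simp only [hu, sum_sub_distrib, sum_add_distrib, sum_boole, filter_mem_eq_inter]
              rw [← map_inter, ← map_inter, card_map, card_map]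
              simp
            refine hb' u ?_ ?_ ?_ ?_ ?_ ?_
            · intro i _
              simp only [u]
              split_ifs <;> norm_num
            · intro i _
              simp only [u]
              split_ifs <;> norm_num
            · intro A hA
              obtain ⟨A', rfl⟩ := hsurj A hA
              rw [husum]
              have h1 := hTle A'
              simp only [g] at h1
              linarith
            · intro A hA
              obtain ⟨A', rfl⟩ := hsurj A hA
              rw [sum_sub_distrib, husum, sum_const, card_map, nsmul_eq_mul]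
              have h1 := hRle A'
              simp only [g] at h1
              linarith
            · have h1 : S.filter (fun i => u i = 2) = T.map ι := by
                ext x
                rw [mem_filter]
                constructor
                · rintro ⟨_, h2⟩
                  by_contra h1
                  simp only [u] at h2
                  by_cases h3 : x ∈ R.map ι
                  · rw [if_neg h1, if_pos h3] at h2; norm_num at h2
                  · rw [if_neg h1, if_neg h3] at h2; norm_num at h2
                · intro h1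
                  exact ⟨hmap T h1, by simp only [u]; rw [if_pos h1]⟩
              rw [h1, card_map, hT]
            · have h1 : S.filter (fun i => u i = 0) = R.map ι := by
                ext x
                rw [mem_filter]
                constructor
                · rintro ⟨_, h2⟩
                  by_contra h1
                  simp only [u] at h2
                  by_cases h3 : x ∈ T.map ι
                  · rw [if_pos h3] at h2; norm_num at h2
                  · rw [if_neg h3, if_neg h1] at h2; norm_num at h2
                · intro h1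
                  refine ⟨hmap R h1, ?_⟩
                  have h3 : x ∉ T.map ι := fun h => hTR' x h h1
                  simp only [u]
                  rw [if_neg h3, if_pos h1]
              rw [h1, card_map, hR]
      obtain ⟨z, hz1, hz2, hz3⟩ := hsol
      -- transport back
      let v : α → ℤ := fun x => if hx : x ∈ S then 1 + z ⟨x, hx⟩ else 0
      have hsum : ∀ A : Finset {x // x ∈ S}, ∑ i ∈ A.map ι, v i = A.card + ∑ i ∈ A, z i := by
        intro A
        rw [sum_map]
        have h1 : ∀ i : {x // x ∈ S}, v (ι i) = 1 + z i := by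
          intro i
          have : (ι i) = i.1 := rfl
          simp only [v, this, i.2, dif_pos]
        simp only [h1, sum_add_distrib, sum_const, nsmul_eq_mul, mul_one]
      have hsurj : ∀ A ⊆ S, ∃ A' : Finset {x // x ∈ S}, A'.map ι = A := by
        intro A hA
        refine ⟨A.subtype (fun x => x ∈ S), ?_⟩
        ext x
        simp only [ι, mem_map, mem_subtype, Function.Embedding.coe_subtype]
        constructor
        · rintro ⟨y, hy, rfl⟩; exact hy
        · intro hx; exact ⟨⟨x, hA hx⟩, hx, rfl⟩
      have hvf : ∀ A ⊆ S, ∑ i ∈ A, v i ≤ f A := by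
        intro A hA
        obtain ⟨A', rfl⟩ := hsurj A hA
        rw [hsum]
        have := hz1 A'
        simp only [g] at this
        linarith
      have hvc : ∀ A ⊆ S, 2 * (A.card : ℤ) - ∑ i ∈ A, v i ≤ f A := by
        intro A hA
        obtain ⟨A', rfl⟩ := hsurj A hA
        rw [hsum, card_map]
        have := hz2 A'
        simp only [g] at this
        linarith
      refine ⟨v, ?_, ?_, hvc, ?_⟩
      · intro i hi
        have h1 := hvc {i} (singleton_subset_iff.mpr hi)
        have h2 := h.two i hi
        simp only [card_singleton, sum_singleton] at h1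
        push_cast at h1
        linarith
      · intro i hi
        have h1 := hvf {i} (singleton_subset_iff.mpr hi)
        have h2 := h.two i hi
        simp only [sum_singleton] at h1
        linarith
      · refine exists_ov h.zero h.sub hvf ?_ ?_
        · apply le_antisymm (hvf S (le_refl S))
          have h1 := hvc S (le_refl S)
          have h2 := hvf S (le_refl S)
          rw [hS] at h1 ⊢
          linarith
        · intro i hi j hj hij
          obtain ⟨A, hA1, hA2⟩ := hz3 ⟨i, hi⟩ ⟨j, hj⟩ (by simpa using hij)
          refine ⟨A.map ι, hmap A, ?_, ?_⟩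
          · rw [hsum, hA1]; simp only [g]; ring
          · have hmem : ∀ (x : α) (hx : x ∈ S), x ∈ A.map ι ↔ (⟨x, hx⟩ : {x // x ∈ S}) ∈ A := by
              intro x hx
              constructor
              · intro h1
                obtain ⟨y, hy, hyx⟩ := mem_map.mp h1
                have : y = ⟨x, hx⟩ := Subtype.ext hyx
                exact this ▸ hy
              · intro h1
                exact mem_map.mpr ⟨_, h1, rfl⟩
            rw [hmem i hi, hmem j hj]
            exact hA2

/-- Truncation of a polymatroid rank function. -/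
theorem Pm.trunc {S : Finset α} (h : Pm S f) : Pm S (fun A => min (f A) S.card) where
  zero := by
    show min (f ∅) (S.card : ℤ) = 0
    rw [h.zero]
    exact min_eq_left (by positivity)
  mono := fun A B hAB hB => min_le_min_right _ (h.mono A B hAB hB)
  sub := fun A hA B hB => by
    show min (f (A ∪ B)) (S.card : ℤ) + min (f (A ∩ B)) (S.card : ℤ)
      ≤ min (f A) (S.card : ℤ) + min (f B) (S.card : ℤ)
    have h1 := h.sub A hA B hB
    have h2 := h.mono (A ∩ B) B inter_subset_right hB
    have h3 := h.mono (A ∩ B) A inter_subset_left hA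
    rcases le_total (f A) S.card with h4 | h4
    · rcases le_total (f B) S.card with h5 | h5
      · rw [min_eq_left h4, min_eq_left h5]
        exact le_trans (add_le_add (min_le_left _ _) (min_le_left _ _)) h1
      · rw [min_eq_right h5, add_comm]
        exact add_le_add (min_le_min_right _ h3) (min_le_right _ _)
    · rw [min_eq_right h4]
      exact add_le_add (min_le_right _ _) (min_le_min_right _ h2)
  two := fun e he => le_trans (min_le_left _ _) (h.two e he)
  one := fun A hA => le_min (h.one A hA) (by exact_mod_cast card_le_card hA)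

/-- From a chain of the truncation to a chain of `f`. -/
theorem ov_trunc {n : ℤ} (h0 : f ∅ = 0) {A : Finset α}
    (h : OV (fun X => min (f X) n) v A) (hn : 0 ≤ n) :
    (OV f v A ∧ f A ≤ n) ∨ ∃ (A₁ : Finset α) (e : α), e ∉ A₁ ∧ insert e A₁ ⊆ A ∧
      OV f v A₁ ∧ f A₁ ≤ n ∧ n < f (insert e A₁) ∧ ∑ i ∈ insert e A₁, v i = n := by
  induction h with
  | nil => exact Or.inl ⟨OV.nil, by rw [h0]; exact hn⟩
  | cons A e he h ht ih =>
    rcases ih with ⟨h1, h2⟩ | ⟨A₁, e₁, h1, h2, h3⟩
    · have ht' : ∑ i ∈ insert e A, v i = min (f (insert e A)) n := ht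
      rcases le_or_gt (f (insert e A)) n with h3 | h3
      · left
        rw [min_eq_left h3] at ht'
        exact ⟨OV.cons A e he h1 ht', h3⟩
      · right
        rw [min_eq_right h3.le] at ht'
        exact ⟨A, e, he, le_refl _, h1, h2, h3, ht'⟩
    · right
      exact ⟨A₁, e₁, h1, h2.trans (subset_insert e A), h3⟩

/-- The general case, combinatorial form. -/
theorem general {α : Type} [DecidableEq α] (S : Finset α) (f : Finset α → ℤ)
    (h : Pm S f) (hcls : Cls S f) : ∃ (v : α → ℤ) (A : Finset α), A ⊆ S ∧ OV f v A ∧ (∀ i ∈ S \ A, v i = 0) ∧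
      (∀ i ∈ S, 0 ≤ v i) ∧ (∀ i ∈ S, v i ≤ 2) ∧
      (∀ B ⊆ S, 2 * (B.card : ℤ) - ∑ i ∈ B, v i ≤ f B) := by
  have hS : (fun A => min (f A) (S.card : ℤ)) S = S.card := min_eq_right (h.one S (le_refl S))
  obtain ⟨v, hv⟩ := base S.card S _ rfl h.trunc hcls.trunc hS
  have hcompl : ∀ B ⊆ S, 2 * (B.card : ℤ) - ∑ i ∈ B, v i ≤ f B := fun B hB =>
    le_trans (hv.compl B hB) (min_le_left _ _)
  have hvS : ∑ i ∈ S, v i = S.card := by
    rw [hv.ov.tight h.trunc.zero]; exact hS
  rcases ov_trunc h.zero hv.ov (by positivity) with ⟨h1, _⟩ | ⟨A, e, heA, hAS, hov, hA, hbig, hsum⟩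
  · exact ⟨v, S, le_refl S, h1, by simp, hv.nonneg, hv.le_two, hcompl⟩
  · have heS : e ∈ S := hAS (mem_insert_self e A)
    have hAS' : A ⊆ S := fun x hx => hAS (mem_insert_of_mem hx)
    have hzero : ∀ i ∈ S \ insert e A, v i = 0 := by
      have h2 : ∑ i ∈ S \ insert e A, v i = 0 := by
        have h3 : ∑ i ∈ S \ insert e A, v i + ∑ i ∈ insert e A, v i = ∑ i ∈ S, v i :=
          sum_sdiff hAS
        rw [hsum, hvS] at h3
        linarith
      have h3 : ∀ i ∈ S \ insert e A, 0 ≤ v i := fun i hi => hv.nonneg i (mem_sdiff.mp hi).1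
      exact (sum_eq_zero_iff_of_nonneg h3).mp h2
    have hAt := hov.tight h.zero
    have hins : ∑ i ∈ insert e A, v i = v e + ∑ i ∈ A, v i := sum_insert heA
    have hfe : f (insert e A) ≤ f A + 2 := by
      have h3 := h.sub A hAS' {e} (singleton_subset_iff.mpr heS)
      rw [inter_singleton_of_notMem heA, h.zero] at h3
      have h4 : A ∪ {e} = insert e A := by rw [union_comm]; rfl
      rw [h4] at h3
      have := h.two e heS
      linarith
    by_cases hve : v e = 0
    · refine ⟨v, A, hAS', hov, ?_, hv.nonneg, hv.le_two, hcompl⟩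
      intro i hi
      by_cases hie : i = e
      · rw [hie]; exact hve
      · refine hzero i ?_
        simp only [mem_sdiff, mem_insert] at hi ⊢
        tauto
    · have hve1 : v e = 1 := by
        have h3 := hv.nonneg e heS
        have h4 : 0 < v e := lt_of_le_of_ne h3 (Ne.symm hve)
        linarith
      have hf2 : f (insert e A) = f A + 2 := by linarith
      let w : α → ℤ := Function.update v e 2
      have hwe : w e = 2 := Function.update_self e 2 v
      have hwo : ∀ i, i ≠ e → w i = v i := fun i hi => Function.update_of_ne hi 2 v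
      have hwge : ∀ i, v i ≤ w i := by
        intro i
        by_cases hie : i = e
        · rw [hie, hwe, hve1]; norm_num
        · rw [hwo i hie]
      refine ⟨w, insert e A, hAS, ?_, ?_, ?_, ?_, ?_⟩
      · refine OV.cons A e heA (hov.congr ?_) ?_
        · intro i hi
          exact (hwo i (fun h => heA (h ▸ hi))).symm
        · rw [sum_insert heA, hwe, hf2]
          have : ∑ i ∈ A, w i = ∑ i ∈ A, v i :=
            sum_congr rfl fun i hi => hwo i (fun h => heA (h ▸ hi))
          rw [this, hAt]; ring
      · intro i hi
        have hie : i ≠ e := by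
          rintro rfl
          exact (mem_sdiff.mp hi).2 (mem_insert_self _ _)
        rw [hwo i hie]
        exact hzero i hi
      · intro i hi
        exact le_trans (hv.nonneg i hi) (hwge i)
      · intro i hi
        by_cases hie : i = e
        · rw [hie, hwe]
        · rw [hwo i hie]; exact hv.le_two i hi
      · intro B hB
        refine le_trans ?_ (hcompl B hB)
        have : ∑ i ∈ B, v i ≤ ∑ i ∈ B, w i := sum_le_sum fun i _ => hwge i
        linarith

theorem eq_of_segment {a b x y c : ℝ} (ha : 0 < a) (hb : 0 < b) (hab : a + b = 1)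
    (hx : x ≤ c) (hy : y ≤ c) (h : a * x + b * y = c) : x = c := by
  have h1 : a * (c - x) + b * (c - y) = 0 := by
    have : a * (c - x) + b * (c - y) = (a + b) * c - (a * x + b * y) := by ring
    rw [this, hab, h]; ring
  have h2 : 0 ≤ a * (c - x) := mul_nonneg ha.le (by linarith)
  have h3 : 0 ≤ b * (c - y) := mul_nonneg hb.le (by linarith)
  have h4 : a * (c - x) = 0 := by linarith
  rcases mul_eq_zero.mp h4 with h5 | h5
  · linarith
  · linarith

/-- Frank's statement for the class `Cls`. -/
theorem main_of_cls :
    ∀ (n : ℕ) (f : Finset (Fin n) → ℤ),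
      f ∅ = 0 →
      Monotone f →
      (∀ A B : Finset (Fin n), f (A ∪ B) + f (A ∩ B) ≤ f A + f B) →
      (∀ e : Fin n, f {e} ≤ 2) →
      (∀ A : Finset (Fin n), (A.card : ℤ) ≤ f A) →
      Cls univ f →
      ∃ v ∈ Set.extremePoints ℝ
          {x : Fin n → ℝ | (∀ i, 0 ≤ x i) ∧
            ∀ A : Finset (Fin n), ∑ i ∈ A, x i ≤ (f A : ℝ)},
        (∀ i, 0 ≤ 2 - v i) ∧
          ∀ A : Finset (Fin n), ∑ i ∈ A, (2 - v i) ≤ (f A : ℝ) := by
  intro n f h0 hmono hsub htwo hone hcls
  have hP : Pm univ f := ⟨h0, fun A B hAB _ => hmono hAB, fun A _ B _ => hsub A B,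
    fun e _ => htwo e, fun A _ => hone A⟩
  obtain ⟨v, A, _, hov, hz, hnn, hle, hc⟩ := general univ f hP hcls
  have hsum : ∀ B : Finset (Fin n), ∑ i ∈ B, (v i : ℝ) = ((∑ i ∈ B, v i : ℤ) : ℝ) := by
    intro B; push_cast; rfl
  have hle' : ∀ B : Finset (Fin n), ∑ i ∈ B, v i ≤ f B := by
    intro B
    have h1 : ∑ i ∈ B, v i = ∑ i ∈ B ∩ A, v i := by
      symm
      refine sum_subset inter_subset_left ?_
      intro x hx hx'
      refine hz x (mem_sdiff.mpr ⟨mem_univ x, fun h => hx' (mem_inter.mpr ⟨hx, h⟩)⟩)
    rw [h1]
    exact le_trans (hov.le univ h0 (fun X _ Y _ => hsub X Y) (subset_univ A) _ inter_subset_right)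
      (hmono inter_subset_left)
  refine ⟨fun i => (v i : ℝ), ?_, ?_, ?_⟩
  · rw [mem_extremePoints]
    refine ⟨⟨?_, ?_⟩, ?_⟩
    · intro i
      show (0 : ℝ) ≤ (v i : ℝ)
      exact_mod_cast hnn i (mem_univ i)
    · intro B
      show ∑ i ∈ B, (v i : ℝ) ≤ (f B : ℝ)
      rw [hsum]
      exact_mod_cast hle' B
    · intro x hx y hy hxy
      obtain ⟨a, b, ha, hb, hab, hxy'⟩ := hxy
      have hco : ∀ i, a * x i + b * y i = (v i : ℝ) := by
        intro i
        have := congrFun hxy' i
        simpa using this
      have haux : ∀ (x y : Fin n → ℝ) (a b : ℝ),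
          ((∀ i, 0 ≤ x i) ∧ ∀ A : Finset (Fin n), ∑ i ∈ A, x i ≤ (f A : ℝ)) →
          ((∀ i, 0 ≤ y i) ∧ ∀ A : Finset (Fin n), ∑ i ∈ A, y i ≤ (f A : ℝ)) →
          0 < a → 0 < b → a + b = 1 → (∀ i, a * x i + b * y i = (v i : ℝ)) →
          x = fun i => (v i : ℝ) := by
        intro x y a b hx hy ha hb hab hco
        have hchain : ∀ B : Finset (Fin n), OV f v B → ∀ i ∈ B, x i = v i := by
          intro B hB
          induction hB with
          | nil => intro i hi; exact absurd hi (notMem_empty i)
          | cons B e he h ht ih =>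
            have h1 : ∑ i ∈ insert e B, x i = (f (insert e B) : ℝ) := by
              refine eq_of_segment ha hb hab (hx.2 _) (hy.2 _) ?_
              rw [mul_sum, mul_sum, ← sum_add_distrib]
              rw [sum_congr rfl fun i _ => hco i, hsum, ht]
            have h2 : ∑ i ∈ insert e B, x i = x e + ∑ i ∈ B, x i := sum_insert he
            have h3 : ∑ i ∈ insert e B, v i = v e + ∑ i ∈ B, v i := sum_insert he
            have h4 : ∑ i ∈ B, x i = ((∑ i ∈ B, v i : ℤ) : ℝ) := by
              rw [← hsum]
              exact sum_congr rfl fun i hi => ih i hi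
            have h5 : x e = v e := by
              have h6 : ((v e + ∑ i ∈ B, v i : ℤ) : ℝ) = (f (insert e B) : ℝ) := by
                rw [← h3, ht]
              push_cast at h6
              rw [h2, h4] at h1
              push_cast at h1
              linarith
            intro i hi
            rcases mem_insert.mp hi with hi | hi
            · rw [hi]; exact h5
            · exact ih i hi
        funext i
        by_cases hiA : i ∈ A
        · exact hchain A hov i hiA
        · have h1 : v i = 0 := hz i (mem_sdiff.mpr ⟨mem_univ i, hiA⟩)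
          have h2 := hco i
          rw [h1] at h2 ⊢
          push_cast at h2 ⊢
          have h3 : -x i = 0 := eq_of_segment ha hb hab
            (by have := hx.1 i; linarith) (by have := hy.1 i; linarith)
            (show a * (-x i) + b * (-y i) = 0 by linarith)
          linarith
      refine ⟨haux x y a b hx hy ha hb hab hco, haux y x b a hy hx hb ha (by linarith) ?_⟩
      intro i
      have := hco i
      linarith
  · intro i
    have := hle i (mem_univ i)
    have h1 : (v i : ℝ) ≤ 2 := by exact_mod_cast this
    linarith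
  · intro B
    have h1 := hc B (subset_univ B)
    rw [sum_sub_distrib, hsum, sum_const, nsmul_eq_mul]
    have h2 : ((2 * (B.card : ℤ) - ∑ i ∈ B, v i : ℤ) : ℝ) ≤ (f B : ℝ) := by exact_mod_cast h1
    push_cast at h2
    push_cast
    linarith

end Pool.Agent.P901b45u
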