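import Mathlib

/-!
Frank's question (MP_901b45_co) for almost uniform 2-polymatroids: the irreducible case.

`g` is the excess function `f - card` of an integer 2-polymatroid with `f univ = card univ`.
If `g A >= min (card A) (card (compl A)) t` for all `A`, and either `g <= t + 1` or no
vector `z` with entries in `-1, 0, 1` and exactly `t + 1` entries `1` and `t + 1` entries `-1`
has both `z` and `-z` in the base polytope `B g`, then there is a vertex `z` of `B g` with
`-z` in `B g`.
-/

set_option autoImplicit false
set_option linter.unusedSectionVars false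

namespace Pool.Agent.P901b45u

open Finset

variable {E : Type} [Fintype E] [DecidableEq E]

/-- The conclusion in integral form. -/
def HasSol (g : Finset E → ℤ) : Prop :=
  ∃ z : E → ℤ, (∀ A : Finset E, ∑ i ∈ A, z i ≤ g A) ∧ (∀ A : Finset E, -∑ i ∈ A, z i ≤ g A) ∧
    ∀ i j : E, i ≠ j → ∃ A : Finset E, ∑ k ∈ A, z k = g A ∧
      (i ∈ A ∧ j ∉ A ∨ j ∈ A ∧ i ∉ A)

theorem up_union {g : Finset E → ℤ}
    (hup : ∀ (A : Finset E) (e : E), g (insert e A) ≤ g A + 1) (A B : Finset E) :
    g (A ∪ B) ≤ g A + B.card := by
  induction B using Finset.induction_on with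
  | empty => simp
  | insert b B hb ih =>
    rw [union_insert, card_insert_of_notMem hb]
    have := hup (A ∪ B) b
    push_cast
    linarith

theorem down_union {g : Finset E → ℤ}
    (hdown : ∀ (A : Finset E) (e : E), g A ≤ g (insert e A) + 1) (A B : Finset E) :
    g A ≤ g (A ∪ B) + B.card := by
  induction B using Finset.induction_on with
  | empty => simp
  | insert b B hb ih =>
    rw [union_insert, card_insert_of_notMem hb]
    have := hdown (A ∪ B) b
    push_cast
    linarith

/-- The basic inequality for a pair `T, R`. -/
theorem pair_le {g : Finset E → ℤ}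
    (hup : ∀ (A : Finset E) (e : E), g (insert e A) ≤ g A + 1)
    (hdown : ∀ (A : Finset E) (e : E), g A ≤ g (insert e A) + 1)
    {T R : Finset E} (hTR : Disjoint T R) {s : ℕ} (hT : T.card = s)
    (h : ∀ A, T ⊆ A → Disjoint A R → (s : ℤ) ≤ g A) (A : Finset E) :
    ((A ∩ T).card : ℤ) - ((A ∩ R).card : ℤ) ≤ g A := by
  have h1 : T ⊆ (A ∪ T) \ R := by
    intro x hx
    exact mem_sdiff.mpr ⟨mem_union_right _ hx, fun hx' => disjoint_left.mp hTR hx hx'⟩
  have h2 : Disjoint ((A ∪ T) \ R) R := sdiff_disjoint
  have h3 := h _ h1 h2
  have h4 := down_union hdown ((A ∪ T) \ R) (A ∩ R)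
  have h5 : (A ∪ T) \ R ∪ (A ∩ R) = A ∪ (T \ A) := by
    ext x
    simp only [mem_union, mem_sdiff, mem_inter]
    have : x ∈ T → x ∉ R := fun h => disjoint_left.mp hTR h
    tauto
  rw [h5] at h4
  have h6 := up_union hup A (T \ A)
  have h7 : ((T \ A).card : ℤ) + ((A ∩ T).card : ℤ) = s := by
    have := card_sdiff_add_card_inter T A
    rw [inter_comm T A] at this
    rw [← hT]
    exact_mod_cast this
  linarith

/-- A pair `T, R` with the separation property gives a solution. -/
theorem mkSol {g : Finset E → ℤ} (h0 : g ∅ = 0) (h1 : g univ = 0)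
    (hup : ∀ (A : Finset E) (e : E), g (insert e A) ≤ g A + 1)
    (hdown : ∀ (A : Finset E) (e : E), g A ≤ g (insert e A) + 1)
    {T R : Finset E} (hTR : Disjoint T R) {s : ℕ} (hT : T.card = s) (hR : R.card = s)
    (hL : ∀ A, T ⊆ A → Disjoint A R → (s : ℤ) ≤ g A)
    (hM : ∀ A, R ⊆ A → Disjoint A T → (s : ℤ) ≤ g A)
    (hsep : ∀ i j, i ∉ T → i ∉ R → j ∉ T → j ∉ R → i ≠ j →
      ∃ A, T ⊆ A ∧ Disjoint A R ∧ g A = s ∧ (i ∈ A ∧ j ∉ A ∨ j ∈ A ∧ i ∉ A)) :
    HasSol g := by
  let z : E → ℤ := fun i => if i ∈ T then 1 else if i ∈ R then -1 else 0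
  have hz : ∀ i, z i = (if i ∈ T then 1 else 0) - (if i ∈ R then 1 else 0) := by
    intro i
    by_cases h : i ∈ T
    · have h' : i ∉ R := fun hx' => disjoint_left.mp hTR h hx'
      simp [z, h, h']
    · by_cases h' : i ∈ R <;> simp [z, h, h']
  have hsum : ∀ A : Finset E, ∑ i ∈ A, z i = ((A ∩ T).card : ℤ) - ((A ∩ R).card : ℤ) := by
    intro A
    simp only [hz, sum_sub_distrib, sum_boole, filter_mem_eq_inter]
  have hle : ∀ A : Finset E, ∑ i ∈ A, z i ≤ g A := by
    intro A
    rw [hsum]
    exact pair_le hup hdown hTR hT hL A
  have hle' : ∀ A : Finset E, -∑ i ∈ A, z i ≤ g A := by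
    intro A
    rw [hsum]
    have := pair_le hup hdown hTR.symm hR hM A
    linarith
  have htT : ∀ i ∈ T, ∑ k ∈ ({i} : Finset E), z k = g {i} := by
    intro i hi
    apply le_antisymm (hle _)
    have h2 := hup ∅ i
    rw [h0] at h2
    have h3 : (insert i (∅ : Finset E)) = {i} := rfl
    rw [h3] at h2
    rw [sum_singleton]
    have h4 : z i = 1 := by simp [z, hi]
    rw [h4]
    linarith
  have htR : ∀ i ∈ R, ∑ k ∈ ({i}ᶜ : Finset E), z k = g {i}ᶜ := by
    intro i hi
    apply le_antisymm (hle _)
    have h2 := hdown {i}ᶜ i
    have h3 : (insert i ({i}ᶜ : Finset E)) = univ := by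
      ext x; simp only [mem_insert, mem_compl, mem_singleton, mem_univ, iff_true]; tauto
    rw [h3, h1] at h2
    have h4 : z i = -1 := by
      have : i ∉ T := fun hx => disjoint_left.mp hTR hx hi
      simp [z, hi, this]
    have h5 : ∑ k ∈ ({i}ᶜ : Finset E), z k + ∑ k ∈ ({i} : Finset E), z k = ∑ k, z k := by
      rw [add_comm]
      exact sum_add_sum_compl {i} z
    have h6 : ∑ k, z k = 0 := by
      have h7 := hsum univ
      rw [univ_inter, univ_inter, hT, hR] at h7
      rw [h7]; ring
    rw [sum_singleton, h4, h6] at h5
    linarith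
  refine ⟨z, hle, hle', ?_⟩
  intro i j hij
  by_cases hiT : i ∈ T
  · exact ⟨{i}, htT i hiT, Or.inl ⟨mem_singleton_self i, by simpa using hij.symm⟩⟩
  by_cases hjT : j ∈ T
  · exact ⟨{j}, htT j hjT, Or.inr ⟨mem_singleton_self j, by simpa using hij⟩⟩
  by_cases hiR : i ∈ R
  · exact ⟨{i}ᶜ, htR i hiR, Or.inr ⟨by simpa using hij.symm, by simp⟩⟩
  by_cases hjR : j ∈ R
  · exact ⟨{j}ᶜ, htR j hjR, Or.inl ⟨by simpa using hij, by simp⟩⟩
  obtain ⟨A, hA1, hA2, hA3, hA4⟩ := hsep i j hiT hiR hjT hjR hij
  refine ⟨A, ?_, hA4⟩
  rw [hsum, hA3, inter_eq_right.mpr hA1, hT]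
  rw [disjoint_iff_inter_eq_empty.mp hA2]
  simp

section Main

variable {g : Finset E → ℤ}

/-- `q` is submodular, at least `t` on the subsets of `V` of size at least `t`, at most `t` on
those of size `t`, and more than `t` on `V`. -/
structure Flat (q : Finset E → ℤ) (V : Finset E) (t : ℕ) : Prop where
  sub : ∀ A B : Finset E, q (A ∪ B) + q (A ∩ B) ≤ q A + q B
  low : ∀ A ⊆ V, t ≤ A.card → (t : ℤ) ≤ q A
  upp : ∀ A ⊆ V, A.card = t → q A ≤ t
  top : (t : ℤ) < q V

/-- `c` and `d` lie, together with `C`, in a set with value at most `t`. -/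
def Rel (q : Finset E → ℤ) (V C : Finset E) (t : ℕ) (c d : E) : Prop :=
  ∃ X ⊆ V, C ⊆ X ∧ c ∈ X ∧ d ∈ X ∧ q X ≤ t

theorem Rel.trans {q : Finset E → ℤ} {V C : Finset E} {t : ℕ} (h : Flat q V t)
    (hC : C.card + 1 = t) {c d e : E} (hd : d ∉ C)
    (h1 : Rel q V C t c d) (h2 : Rel q V C t d e) : Rel q V C t c e := by
  obtain ⟨X, hXV, hCX, hcX, hdX, hX⟩ := h1
  obtain ⟨Y, hYV, hCY, hdY, heY, hY⟩ := h2
  refine ⟨X ∪ Y, union_subset hXV hYV, hCX.trans subset_union_left, mem_union_left _ hcX,
    mem_union_right _ heY, ?_⟩
  have h3 := h.sub X Y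
  have h4 : (t : ℤ) ≤ q (X ∩ Y) := by
    refine h.low _ (inter_subset_left.trans hXV) ?_
    have h5 : insert d C ⊆ X ∩ Y := by
      intro x hx
      rcases mem_insert.mp hx with rfl | hx
      · exact mem_inter.mpr ⟨hdX, hdY⟩
      · exact mem_inter.mpr ⟨hCX hx, hCY hx⟩
    have h6 := card_le_card h5
    rw [card_insert_of_notMem hd] at h6
    omega
  linarith

theorem Rel.symm {q : Finset E → ℤ} {V C : Finset E} {t : ℕ} {c d : E}
    (h : Rel q V C t c d) : Rel q V C t d c := by
  obtain ⟨X, h1, h2, h3, h4, h5⟩ := h
  exact ⟨X, h1, h2, h4, h3, h5⟩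

theorem Rel.refl {q : Finset E → ℤ} {V C : Finset E} {t : ℕ} (h : Flat q V t)
    (hCV : C ⊆ V) (hC : C.card + 1 = t) {c : E} (hc : c ∈ V) (hc' : c ∉ C) :
    Rel q V C t c c := by
  refine ⟨insert c C, insert_subset hc hCV, subset_insert c C, mem_insert_self c C,
    mem_insert_self c C, h.upp _ (insert_subset hc hCV) ?_⟩
  rw [card_insert_of_notMem hc']
  exact hC

/-- `Rel` is not total. -/
theorem exists_not_rel {q : Finset E → ℤ} {V C : Finset E} {t : ℕ} (h : Flat q V t)
    (hCV : C ⊆ V) (hC : C.card + 1 = t) {c : E} (hc : c ∈ V) (hc' : c ∉ C) :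
    ∃ d ∈ V, d ∉ C ∧ ¬ Rel q V C t c d := by
  classical
  let F := V.powerset.filter (fun X => C ⊆ X ∧ c ∈ X ∧ q X ≤ t)
  have hne : F.Nonempty := by
    refine ⟨insert c C, ?_⟩
    simp only [F, mem_filter, mem_powerset]
    refine ⟨insert_subset hc hCV, subset_insert c C, mem_insert_self c C,
      h.upp _ (insert_subset hc hCV) ?_⟩
    rw [card_insert_of_notMem hc']
    exact hC
  obtain ⟨X, hX, hmax⟩ := exists_max_image F card hne
  simp only [F, mem_filter, mem_powerset] at hX
  obtain ⟨hXV, hCX, hcX, hXt⟩ := hX
  have hXne : X ≠ V := by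
    rintro rfl
    have := h.top
    linarith
  obtain ⟨d, hdV, hdX⟩ := exists_of_ssubset (ssubset_of_subset_of_ne hXV hXne)
  refine ⟨d, hdV, fun hd => hdX (hCX hd), ?_⟩
  rintro ⟨Y, hYV, hCY, hcY, hdY, hY⟩
  have h3 := h.sub X Y
  have h4 : (t : ℤ) ≤ q (X ∩ Y) := by
    refine h.low _ (inter_subset_left.trans hXV) ?_
    have h5 : insert c C ⊆ X ∩ Y := by
      intro x hx
      rcases mem_insert.mp hx with rfl | hx
      · exact mem_inter.mpr ⟨hcX, hcY⟩
      · exact mem_inter.mpr ⟨hCX hx, hCY hx⟩
    have h6 := card_le_card h5
    rw [card_insert_of_notMem hc'] at h6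
    omega
  have h7 : X ∪ Y ∈ F := by
    simp only [F, mem_filter, mem_powerset]
    exact ⟨union_subset hXV hYV, hCX.trans subset_union_left, mem_union_left _ hcX, by linarith⟩
  have h8 := hmax _ h7
  have h9 : X ⊂ X ∪ Y := by
    refine ⟨subset_union_left, fun hcon => hdX (hcon (mem_union_right _ hdY))⟩
  have := card_lt_card h9
  omega

/-- Two flat structures: some pair is in neither relation. -/
theorem exists_pair {q p : Finset E → ℤ} {V C : Finset E} {t : ℕ} (hq : Flat q V t)
    (hp : Flat p V t) (hCV : C ⊆ V) (hC : C.card + 1 = t) (hV : t ≤ V.card) :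
    ∃ c ∈ V, ∃ d ∈ V, c ∉ C ∧ d ∉ C ∧ c ≠ d ∧ ¬ Rel q V C t c d ∧ ¬ Rel p V C t c d := by
  by_contra hcon
  push Not at hcon
  have hex : ∃ c ∈ V, c ∉ C := by
    by_contra h
    push Not at h
    have := card_le_card (show V ⊆ C from h)
    omega
  obtain ⟨c, hcV, hcC⟩ := hex
  obtain ⟨d, hdV, hdC, hd⟩ := exists_not_rel hq hCV hC hcV hcC
  obtain ⟨e, heV, heC, he⟩ := exists_not_rel hp hCV hC hcV hcC
  have hcd : c ≠ d := by
    rintro rfl
    exact hd (Rel.refl hq hCV hC hcV hcC)
  have hce : c ≠ e := by
    rintro rfl
    exact he (Rel.refl hp hCV hC hcV hcC)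
  have h1 : Rel p V C t c d := hcon c hcV d hdV hcC hdC hcd hd
  have h2 : Rel q V C t c e := by
    by_contra h
    exact he (hcon c hcV e heV hcC heC hce h)
  have hde : d ≠ e := by
    rintro rfl
    exact hd h2
  by_cases h3 : Rel q V C t d e
  · exact hd (Rel.trans hq hC heC h2 h3.symm)
  · have h4 := hcon d hdV e heV hdC heC hde h3
    exact he (Rel.trans hp hC hdC h1 h4)

theorem main_core (h0 : g ∅ = 0) (h1 : g univ = 0)
    (hsub : ∀ A B : Finset E, g (A ∪ B) + g (A ∩ B) ≤ g A + g B)
    (hup : ∀ (A : Finset E) (e : E), g (insert e A) ≤ g A + 1)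
    (hdown : ∀ (A : Finset E) (e : E), g A ≤ g (insert e A) + 1)
    (t : ℕ) (ht : 1 ≤ t)
    (hC : ∀ A : Finset E, min (A.card : ℤ) (min (Aᶜ.card : ℤ) t) ≤ g A)
    (hor : (∀ A : Finset E, g A ≤ t + 1) ∨
      ∀ T R : Finset E, Disjoint T R → T.card = t + 1 → R.card = t + 1 →
        (∀ A : Finset E, ((A ∩ T).card : ℤ) - ((A ∩ R).card : ℤ) ≤ g A) →
        (∀ A : Finset E, ((A ∩ R).card : ℤ) - ((A ∩ T).card : ℤ) ≤ g A) → False) :
    HasSol g := by
  classical
  set n := Fintype.card E with hn
  have hcompl : ∀ A : Finset E, A.card + Aᶜ.card = n := fun A => card_add_card_compl A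
  have hCt : ∀ A : Finset E, t ≤ A.card → t ≤ Aᶜ.card → (t : ℤ) ≤ g A := by
    intro A h2 h3
    refine le_trans ?_ (hC A)
    refine le_min (by exact_mod_cast h2) (le_min (by exact_mod_cast h3) le_rfl)
  have hcard : ∀ A : Finset E, g A ≤ A.card := by
    intro A
    have := up_union hup ∅ A
    rw [empty_union, h0] at this
    linarith
  have hcard' : ∀ A : Finset E, g A ≤ Aᶜ.card := by
    intro A
    have := down_union hdown A Aᶜ
    rw [union_compl, h1] at this
    linarith
  rcases Nat.lt_or_ge (2 * t + 1) n with hbig | hsmall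
  swap
  · -- small ground set
    obtain ⟨T, _, hT⟩ := exists_subset_card_eq (s := (univ : Finset E)) (n := n / 2)
      (by rw [card_univ, ← hn]; omega)
    obtain ⟨R, hRT, hR⟩ := exists_subset_card_eq (s := Tᶜ) (n := n / 2)
      (by have := hcompl T; omega)
    have hTR : Disjoint T R := by
      rw [disjoint_left]
      intro x hx hx'
      exact mem_compl.mp (hRT hx') hx
    have key : ∀ X Y : Finset E, X.card = n / 2 → Y.card = n / 2 → ∀ A, X ⊆ A → Disjoint A Y →
        ((n / 2 : ℕ) : ℤ) ≤ g A := by
      intro X Y hX hY A hXA hAY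
      have h2 : n / 2 ≤ A.card := hX ▸ card_le_card hXA
      have h3 : n / 2 ≤ Aᶜ.card := by
        rw [← hY]
        refine card_le_card fun x hx => mem_compl.mpr fun hx' => disjoint_left.mp hAY hx' hx
      have h4 : n / 2 ≤ t := by omega
      refine le_trans ?_ (hC A)
      exact le_min (by exact_mod_cast h2) (le_min (by exact_mod_cast h3) (by exact_mod_cast h4))
    refine mkSol h0 h1 hup hdown hTR hT hR (key T R hT hR) (key R T hR hT) ?_
    intro i j hiT hiR hjT hjR hij
    exfalso
    have h2 : insert i (insert j (T ∪ R)) ⊆ univ := subset_univ _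
    have h3 := card_le_card h2
    rw [card_insert_of_notMem (by simp [hij, hiT, hiR]), card_insert_of_notMem (by simp [hjT, hjR]),
      card_union_of_disjoint hTR, hT, hR, card_univ, ← hn] at h3
    omega
  · by_cases hN : ∀ T : Finset E, T.card = t + 1 → g T ≤ t ∨ g Tᶜ ≤ t
    · -- the second case
      -- reachable sets
      let Reach : Finset E → Prop := fun A => ∃ T ⊆ A, T.card = t ∧ g A = t ∧
        ∀ i ∈ A \ T, ∀ j ∈ A \ T, i ≠ j → ∃ B, T ⊆ B ∧ B ⊆ A ∧ g B = t ∧
          (i ∈ B ∧ j ∉ B ∨ j ∈ B ∧ i ∉ B)
      let F := (univ : Finset (Finset E)).filter (fun A => Reach A ∧ A.card + t ≤ n)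
      have hgt : ∀ A : Finset E, A.card = t → g A = t := by
        intro A hA
        apply le_antisymm
        · rw [← hA]; exact hcard A
        · exact hCt A hA.ge (by have := hcompl A; omega)
      have hFne : F.Nonempty := by
        obtain ⟨T, _, hT⟩ := exists_subset_card_eq (s := (univ : Finset E)) (n := t)
          (by rw [card_univ, ← hn]; omega)
        refine ⟨T, ?_⟩
        simp only [F, mem_filter, mem_univ, true_and]
        refine ⟨⟨T, le_refl T, hT, hgt T hT, ?_⟩, by omega⟩
        intro i hi
        simp at hi
      obtain ⟨A, hA, hmax⟩ := exists_max_image F card hFne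
      simp only [F, mem_filter, mem_univ, true_and] at hA
      obtain ⟨⟨T, hTA, hT, hAt, hTsep⟩, hAn⟩ := hA
      have hAT : t ≤ A.card := hT ▸ card_le_card hTA
      rcases Nat.lt_or_ge (A.card + t) n with hlt | hge
      swap
      · -- the reachable set is large enough
        have hR : Aᶜ.card = t := by have := hcompl A; omega
        have hTR : Disjoint T Aᶜ := by
          rw [disjoint_left]
          intro x hx hx'
          exact mem_compl.mp hx' (hTA hx)
        have key : ∀ X Y : Finset E, X.card = t → Y.card = t → ∀ B, X ⊆ B → Disjoint B Y →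
            (t : ℤ) ≤ g B := by
          intro X Y hX hY B hXB hBY
          refine hCt B (hX ▸ card_le_card hXB) ?_
          rw [← hY]
          exact card_le_card fun x hx => mem_compl.mpr fun hx' => disjoint_left.mp hBY hx' hx
        refine mkSol h0 h1 hup hdown hTR hT hR (key _ _ hT hR) (key _ _ hR hT) ?_
        intro i j hiT hiR hjT hjR hij
        have hiA : i ∈ A := by simpa using hiR
        have hjA : j ∈ A := by simpa using hjR
        obtain ⟨B, hB1, hB2, hB3, hB4⟩ := hTsep i (mem_sdiff.mpr ⟨hiA, hiT⟩) j
          (mem_sdiff.mpr ⟨hjA, hjT⟩) hij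
        refine ⟨B, hB1, ?_, hB3, hB4⟩
        rw [disjoint_left]
        intro x hx hx'
        exact mem_compl.mp hx' (hB2 hx)
      · -- the reachable set is maximal
        have hplus : ∀ e, e ∉ A → g (insert e A) = t + 1 := by
          intro e he
          have h2 := hup A e
          have hc : (insert e A).card = A.card + 1 := card_insert_of_notMem he
          have h3 : (t : ℤ) ≤ g (insert e A) := by
            refine hCt _ (by omega) ?_
            have := hcompl (insert e A)
            omega
          have h4 : g (insert e A) ≠ t := by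
            intro h5
            have h6 : insert e A ∈ F := by
              simp only [F, mem_filter, mem_univ, true_and]
              refine ⟨⟨T, hTA.trans (subset_insert e A), hT, h5, ?_⟩, by omega⟩
              intro i hi j hj hij
              rw [mem_sdiff, mem_insert] at hi hj
              rcases hi with ⟨rfl | hiA, hiT⟩
              · rcases hj with ⟨rfl | hjA, hjT⟩
                · exact absurd rfl hij
                · exact ⟨A, hTA, subset_insert _ A, hAt, Or.inr ⟨hjA, he⟩⟩
              · rcases hj with ⟨rfl | hjA, hjT⟩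
                · exact ⟨A, hTA, subset_insert _ A, hAt, Or.inl ⟨hiA, he⟩⟩
                · obtain ⟨B, hB1, hB2, hB3⟩ := hTsep i (mem_sdiff.mpr ⟨hiA, hiT⟩) j
                    (mem_sdiff.mpr ⟨hjA, hjT⟩) hij
                  exact ⟨B, hB1, hB2.trans (subset_insert e A), hB3⟩
            have h7 := hmax _ h6
            omega
          rcases lt_or_gt_of_ne h4 with h5 | h5
          · linarith
          · linarith [Int.add_one_le_iff.mpr h5]
        -- base co-sets
        have hbase : ∀ (T' : Finset E) (e : E), T' ⊆ A → T'.card = t → e ∉ A →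
            g (insert e T')ᶜ ≤ t := by
          intro T' e hT' hTc he
          have heT' : e ∉ T' := fun h => he (hT' h)
          have h2 := hsub (insert e T') A
          have h3 : insert e T' ∪ A = insert e A := by
            ext x
            simp only [mem_union, mem_insert]
            constructor
            · rintro ((h | h) | h)
              · exact Or.inl h
              · exact Or.inr (hT' h)
              · exact Or.inr h
            · rintro (h | h)
              · exact Or.inl (Or.inl h)
              · exact Or.inr h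
          have h4 : insert e T' ∩ A = T' := by
            ext x
            simp only [mem_inter, mem_insert]
            constructor
            · rintro ⟨rfl | h, hA⟩
              · exact absurd hA he
              · exact h
            · intro h
              exact ⟨Or.inr h, hT' h⟩
          rw [h3, h4, hplus e he, hgt T' hTc, hAt] at h2
          have h5 : (insert e T').card = t + 1 := by
            rw [card_insert_of_notMem heT', hTc]
          rcases hN _ h5 with h6 | h6
          · linarith
          · exact h6
        obtain ⟨e, he⟩ : ∃ e, e ∉ A := by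
          by_contra hcon
          push Not at hcon
          have : A = univ := eq_univ_of_forall hcon
          rw [this, card_univ, ← hn] at hlt
          omega
        have heT : e ∉ T := fun h => he (hTA h)
        -- the co-closure
        have hclos : ∀ X : Finset E, T ⊆ X → e ∈ X → g Xᶜ ≤ t := by
          intro X hTX heX
          let G := X.powerset.filter (fun Y => T ⊆ Y ∧ e ∈ Y ∧ g Yᶜ ≤ t)
          have hGne : G.Nonempty := by
            refine ⟨insert e T, ?_⟩
            simp only [G, mem_filter, mem_powerset]
            exact ⟨insert_subset heX hTX, subset_insert e T, mem_insert_self e T,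
              hbase T e hTA hT he⟩
          obtain ⟨Y, hY, hYmax⟩ := exists_max_image G card hGne
          simp only [G, mem_filter, mem_powerset] at hY
          obtain ⟨hYX, hTY, heY, hYt⟩ := hY
          by_cases hYX' : Y = X
          · rw [← hYX']; exact hYt
          exfalso
          obtain ⟨y, hyX, hyY⟩ := exists_of_ssubset (ssubset_of_subset_of_ne hYX hYX')
          -- a co-set `Z` containing `y` and meeting `Y` in `t` elements
          have hZ : ∃ Z : Finset E, g Zᶜ ≤ t ∧ Y ∪ Z = insert y Y ∧ (Y ∩ Z).card = t := by
            by_cases hyA : y ∈ A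
            · have hTne : T.Nonempty := by
                rw [← card_pos, hT]; omega
              obtain ⟨r, hr⟩ := hTne
              have hyT : y ∉ T := fun h => hyY (hTY h)
              have hye : y ≠ e := by
                rintro rfl; exact hyY heY
              refine ⟨insert e (insert y (T.erase r)), hbase _ e ?_ ?_ he, ?_, ?_⟩
              · exact insert_subset hyA ((erase_subset r T).trans hTA)
              · rw [card_insert_of_notMem (fun h => hyT (mem_of_mem_erase h)),
                  card_erase_of_mem hr, hT]
                omega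
              · ext x
                simp only [mem_union, mem_insert, mem_erase]
                constructor
                · rintro (h | rfl | rfl | ⟨_, h⟩)
                  · exact Or.inr h
                  · exact Or.inr heY
                  · exact Or.inl rfl
                  · exact Or.inr (hTY h)
                · rintro (rfl | h)
                  · exact Or.inr (Or.inr (Or.inl rfl))
                  · exact Or.inl h
              · have h2 : Y ∩ insert e (insert y (T.erase r)) = insert e (T.erase r) := by
                  ext x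
                  simp only [mem_inter, mem_insert, mem_erase]
                  constructor
                  · rintro ⟨hx, rfl | rfl | h⟩
                    · exact Or.inl rfl
                    · exact absurd hx hyY
                    · exact Or.inr h
                  · rintro (rfl | ⟨h3, h4⟩)
                    · exact ⟨heY, Or.inl rfl⟩
                    · exact ⟨hTY h4, Or.inr (Or.inr ⟨h3, h4⟩)⟩
                rw [h2, card_insert_of_notMem (fun h => heT (mem_of_mem_erase h)),
                  card_erase_of_mem hr, hT]
                omega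
            · have hyT : y ∉ T := fun h => hyY (hTY h)
              refine ⟨insert y T, hbase T y hTA hT hyA, ?_, ?_⟩
              · ext x
                simp only [mem_union, mem_insert]
                constructor
                · rintro (h | rfl | h)
                  · exact Or.inr h
                  · exact Or.inl rfl
                  · exact Or.inr (hTY h)
                · rintro (rfl | h)
                  · exact Or.inr (Or.inl rfl)
                  · exact Or.inl h
              · have h2 : Y ∩ insert y T = T := by
                  ext x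
                  simp only [mem_inter, mem_insert]
                  constructor
                  · rintro ⟨hx, rfl | h⟩
                    · exact absurd hx hyY
                    · exact h
                  · intro h
                    exact ⟨hTY h, Or.inr h⟩
                rw [h2, hT]
          obtain ⟨Z, hZt, hYZ, hYZc⟩ := hZ
          have h2 := hsub Yᶜ Zᶜ
          have h3 : Yᶜ ∪ Zᶜ = (Y ∩ Z)ᶜ := by rw [compl_inter]
          have h4 : Yᶜ ∩ Zᶜ = (Y ∪ Z)ᶜ := by rw [compl_union]
          rw [h3, h4, hYZ] at h2
          have h5 : (t : ℤ) ≤ g (Y ∩ Z)ᶜ := by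
            refine hCt _ ?_ ?_
            · have := hcompl (Y ∩ Z)
              omega
            · rw [compl_compl, hYZc]
          have h6 : insert y Y ∈ G := by
            simp only [G, mem_filter, mem_powerset]
            exact ⟨insert_subset hyX hYX, hTY.trans (subset_insert y Y),
              mem_insert_of_mem heY, by linarith⟩
          have h7 := hYmax _ h6
          rw [card_insert_of_notMem hyY] at h7
          omega
        have hall : ∀ S : Finset E, t ≤ S.card → Disjoint S T → e ∉ S → g S = t := by
          intro S hS hST heS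
          apply le_antisymm
          · have h2 := hclos Sᶜ (fun x hx => mem_compl.mpr fun hx' => disjoint_left.mp hST hx' hx)
              (mem_compl.mpr heS)
            rwa [compl_compl] at h2
          · refine hCt S hS ?_
            rw [← hT]
            exact card_le_card fun x hx => mem_compl.mpr fun hx' => disjoint_left.mp hST hx' hx
        obtain ⟨T₁, hT₁s, hT₁⟩ := exists_subset_card_eq (s := (insert e T)ᶜ) (n := t) (by
          have := hcompl (insert e T)
          rw [card_insert_of_notMem heT, hT] at this
          omega)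
        have heT₁ : e ∉ T₁ := fun h => mem_compl.mp (hT₁s h) (mem_insert_self e T)
        have hdis : Disjoint T₁ T := by
          rw [disjoint_left]
          intro x hx hx'
          exact mem_compl.mp (hT₁s hx) (mem_insert_of_mem hx')
        have key : ∀ X Y : Finset E, X.card = t → Y.card = t → ∀ B, X ⊆ B → Disjoint B Y →
            (t : ℤ) ≤ g B := by
          intro X Y hX hY B hXB hBY
          refine hCt B (hX ▸ card_le_card hXB) ?_
          rw [← hY]
          exact card_le_card fun x hx => mem_compl.mpr fun hx' => disjoint_left.mp hBY hx' hx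
        refine mkSol h0 h1 hup hdown hdis hT₁ hT (key _ _ hT₁ hT) (key _ _ hT hT₁) ?_
        have hone : ∀ i, i ∉ T₁ → i ∉ T → i ≠ e → T₁ ⊆ insert i T₁ ∧ Disjoint (insert i T₁) T ∧
            g (insert i T₁) = t := by
          intro i hi hi' hie
          have hd : Disjoint (insert i T₁) T := by
            rw [disjoint_insert_left]
            exact ⟨hi', hdis⟩
          refine ⟨subset_insert i T₁, hd, hall _ ?_ hd ?_⟩
          · rw [card_insert_of_notMem hi]; omega
          · rw [mem_insert]
            rintro (h | h)
            · exact hie h.symm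
            · exact heT₁ h
        intro i j hiT₁ hiT hjT₁ hjT hij
        by_cases hie : i = e
        · have hje : j ≠ e := fun h => hij (hie.trans h.symm)
          obtain ⟨h2, h3, h4⟩ := hone j hjT₁ hjT hje
          refine ⟨insert j T₁, h2, h3, h4, Or.inr ⟨mem_insert_self j T₁, ?_⟩⟩
          rw [mem_insert]
          rintro (h | h)
          · exact hij h
          · exact hiT₁ h
        · obtain ⟨h2, h3, h4⟩ := hone i hiT₁ hiT hie
          refine ⟨insert i T₁, h2, h3, h4, Or.inl ⟨mem_insert_self i T₁, ?_⟩⟩
          rw [mem_insert]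
          rintro (h | h)
          · exact hij h.symm
          · exact hjT₁ h
    · -- the first case
      push Not at hN
      obtain ⟨T, hT, hTg, hTg'⟩ := hN
      have hVc : Tᶜ.card = n - (t + 1) := by have := hcompl T; omega
      have hq : Flat g Tᶜ t := by
        refine ⟨hsub, ?_, ?_, hTg'⟩
        · intro A hA hAc
          refine hCt A hAc ?_
          have h2 : T ⊆ Aᶜ := fun x hx => mem_compl.mpr fun hx' => mem_compl.mp (hA hx') hx
          have := card_le_card h2
          omega
        · intro A _ hA
          rw [← hA]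
          exact hcard A
      have hp : Flat (fun X => g Xᶜ) Tᶜ t := by
        refine ⟨?_, ?_, ?_, ?_⟩
        · intro A B
          show g (A ∪ B)ᶜ + g (A ∩ B)ᶜ ≤ g Aᶜ + g Bᶜ
          have h2 := hsub Aᶜ Bᶜ
          rw [compl_union, compl_inter]
          linarith
        · intro A hA hAc
          show (t : ℤ) ≤ g Aᶜ
          refine hCt Aᶜ ?_ (by rwa [compl_compl])
          have h2 : T ⊆ Aᶜ := fun x hx => mem_compl.mpr fun hx' => mem_compl.mp (hA hx') hx
          have := card_le_card h2
          omega
        · intro A _ hA
          show g Aᶜ ≤ t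
          have := hcard' Aᶜ
          rwa [compl_compl, hA] at this
        · show (t : ℤ) < g Tᶜᶜ
          rwa [compl_compl]
      obtain ⟨C, hCV, hCc⟩ := exists_subset_card_eq (s := Tᶜ) (n := t - 1) (by omega)
      obtain ⟨c, hcV, d, hdV, hcC, hdC, hcd, h2, h3⟩ := exists_pair hq hp hCV (by omega)
        (by omega)
      let R := insert c (insert d C)
      have hRV : R ⊆ Tᶜ := insert_subset hcV (insert_subset hdV hCV)
      have hRc : R.card = t + 1 := by
        simp only [R]
        rw [card_insert_of_notMem (by simp [hcd, hcC]), card_insert_of_notMem hdC]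
        omega
      have hTR : Disjoint T R := by
        rw [disjoint_left]
        intro x hx hx'
        exact mem_compl.mp (hRV hx') hx
      have hCR : C ⊆ R := (subset_insert d C).trans (subset_insert c _)
      have hcR : c ∈ R := mem_insert_self c _
      have hdR : d ∈ R := mem_insert_of_mem (mem_insert_self d C)
      have hL : ∀ A, T ⊆ A → Disjoint A R → ((t + 1 : ℕ) : ℤ) ≤ g A := by
        intro A hTA hAR
        by_contra hcon
        push Not at hcon
        push_cast at hcon
        have hRA : R ⊆ Aᶜ := fun x hx => mem_compl.mpr fun hx' => disjoint_left.mp hAR hx' hx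
        refine h3 ⟨Aᶜ, ?_, hCR.trans hRA, hRA hcR, hRA hdR, ?_⟩
        · exact compl_subset_compl.mpr hTA
        · show g Aᶜᶜ ≤ t
          rw [compl_compl]
          linarith [Int.add_one_le_iff.mpr hcon]
      have hM : ∀ A, R ⊆ A → Disjoint A T → ((t + 1 : ℕ) : ℤ) ≤ g A := by
        intro A hRA hAT
        by_contra hcon
        push Not at hcon
        push_cast at hcon
        refine h2 ⟨A, ?_, hCR.trans hRA, hRA hcR, hRA hdR, ?_⟩
        · exact fun x hx => mem_compl.mpr fun hx' => disjoint_left.mp hAT hx hx'
        · linarith [Int.add_one_le_iff.mpr hcon]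
      have hband : ∀ A : Finset E, g A ≤ t + 1 := by
        rcases hor with h | h
        · exact h
        · exact absurd (h T R hTR hT hRc (pair_le hup hdown hTR hT hL)
            (pair_le hup hdown hTR.symm hRc hM)) id
      refine mkSol h0 h1 hup hdown hTR hT hRc hL hM ?_
      intro i j hiT hiR hjT hjR hij
      have hd : Disjoint (insert i T) R := by
        rw [disjoint_insert_left]
        exact ⟨hiR, hTR⟩
      refine ⟨insert i T, subset_insert i T, hd, ?_, Or.inl ⟨mem_insert_self i T, ?_⟩⟩
      · apply le_antisymm
        · push_cast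
          exact hband _
        · exact hL _ (subset_insert i T) hd
      · rw [mem_insert]
        rintro (h | h)
        · exact hij h.symm
        · exact hjT h

end Main

end Pool.Agent.P901b45u
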